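import Mathlib
import Pool.Agent.KS6_27.RCb

set_option autoImplicit false

/-!
# 2-recurrence: powers versus commuting transformations, for continuum many almost disjoint
sequences which grow as fast as one likes
-/

open MeasureTheory

universe u

namespace Pool.Agent.Results.MP_02e9fb_an.FastGrowingFamilies

open Pool.Agent.Results.MP_02e9fb_an.PowersNotCommuting (zpw GoodPowers GoodCommuting
  commuting_system exists_seq inT_pos)
open Pool.Agent.KS6_27.RC
open Pool.Agent.Helper406.Rec2 (nz actOf)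

/-- `a` is good for 2-recurrence of powers, with infinitely many return times: for all integers
`k₁, k₂`, every invertible measure preserving system and every set `A` of positive measure there
are infinitely many `n` with `a n ≠ 0` and
`μ (A ∩ T^(-k₁ a(n)) A ∩ T^(-k₂ a(n)) A) > 0`. -/
def GoodPowersInf (a : ℕ → ℤ) : Prop :=
  ∀ (k₁ k₂ : ℤ) (X : Type u) [MeasurableSpace X] (μ : Measure X) [IsProbabilityMeasure μ]
    (T : X ≃ᵐ X), MeasurePreserving T μ μ → ∀ A : Set X, MeasurableSet A → 0 < μ A →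
      ∀ m : ℕ, ∃ n, m ≤ n ∧ a n ≠ 0 ∧
        0 < μ (A ∩ (zpw T (k₁ * a n)) ⁻¹' A ∩ (zpw T (k₂ * a n)) ⁻¹' A)

lemma goodPowersInf (g : ℕ → ℕ) (b : ℕ → Bool) :
    GoodPowersInf.{u} (fun n => (sq g b n : ℤ)) := by
  intro k₁ k₂ X _ μ _ T hT A hA hpos m
  obtain ⟨N, hN, hp⟩ := positivity_all μ (actOf μ T hT) (LL g b) (sq g b m) hA hpos k₁ k₂
  obtain ⟨n, hmn, hn⟩ := sq_surj g b m N hN
  refine ⟨n, hmn, ?_, ?_⟩
  · have := inT_pos (sq_inT g b n)
    dsimp only
    exact_mod_cast this.ne'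
  · dsimp only
    rw [hn]
    have h1 : A ∩ (zpw T (k₁ * N)) ⁻¹' A ∩ (zpw T (k₂ * N)) ⁻¹' A
        = {x | x ∈ A ∧ (actOf μ T hT).P (k₁ * N) x ∈ A ∧ (actOf μ T hT).P (k₂ * N) x ∈ A} := by
      ext x
      simp only [Set.mem_inter_iff, Set.mem_preimage, Set.mem_ofPred_eq]
      exact and_assoc
    rw [h1]
    unfold nz Measure.real at hp
    exact (ENNReal.toReal_pos_iff.1 hp).1

/-- There are commuting measure preserving automorphisms `T₁, T₂` of a standard Borel probability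
space and a set `A` of positive measure such that for every function `g : ℕ → ℕ` there is a family
of continuum many strictly increasing sequences `a b`, `b : ℕ → Bool`, of positive integers with
`a b n ≥ g n` for all `n`, any two of which have only finitely many common values, each of which is
good for 2-recurrence of powers (with infinitely many return times), while
`μ (A ∩ T₁^(-a) A ∩ T₂^(-a) A) = 0` for all values `a` of all of them. -/
theorem result :
    ∃ (X : Type) (_ : MeasurableSpace X) (_ : StandardBorelSpace X) (μ : Measure X)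
      (_ : IsProbabilityMeasure μ) (T₁ T₂ : X ≃ᵐ X) (A : Set X),
      MeasurePreserving T₁ μ μ ∧ MeasurePreserving T₂ μ μ ∧ (∀ x, T₁ (T₂ x) = T₂ (T₁ x)) ∧
      MeasurableSet A ∧ 0 < μ A ∧
      ∀ g : ℕ → ℕ, ∃ a : (ℕ → Bool) → ℕ → ℤ,
        (∀ b, StrictMono (a b) ∧ (∀ n, 0 < a b n ∧ (g n : ℤ) ≤ a b n) ∧
          GoodPowers.{u} (a b) ∧ GoodPowersInf.{u} (a b) ∧ ¬ GoodCommuting.{0} (a b) ∧
          ∀ n, μ (A ∩ (zpw T₁ (a b n)) ⁻¹' A ∩ (zpw T₂ (a b n)) ⁻¹' A) = 0) ∧
        ∀ b b', b ≠ b' → (Set.range (a b) ∩ Set.range (a b')).Finite := by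
  obtain ⟨X, mX, sX, μ, hμ, T₁, T₂, A, h1, h2, h3, h4, h5, h6⟩ := commuting_system
  refine ⟨X, mX, sX, μ, hμ, T₁, T₂, A, h1, h2, h3, h4, h5, fun g =>
    ⟨fun b n => (sq g b n : ℤ), fun b => ?_, fun b b' hb => ?_⟩⟩
  · have h0 : ∀ n, μ (A ∩ (zpw T₁ (sq g b n : ℤ)) ⁻¹' A ∩ (zpw T₂ (sq g b n : ℤ)) ⁻¹' A) = 0 := by
      intro n
      obtain ⟨n', hn'⟩ := exists_seq (sq_inT g b n)
      rw [← hn']
      exact h6 n'
    refine ⟨?_, ?_, ?_, goodPowersInf g b, ?_, h0⟩
    · intro m n hmn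
      dsimp only
      exact_mod_cast sq_strictMono g b hmn
    · intro n
      dsimp only
      exact ⟨by exact_mod_cast inT_pos (sq_inT g b n), by exact_mod_cast sq_ge g b n⟩
    · intro k₁ k₂ Y _ ν _ T hT C hC hpos
      obtain ⟨n, -, hn⟩ := goodPowersInf g b k₁ k₂ Y ν T hT C hC hpos 0
      exact ⟨n, hn⟩
    · intro hgood
      obtain ⟨n, _, hn⟩ := hgood X μ T₁ T₂ h1 h2 h3 A h4 h5
      rw [h0 n] at hn
      exact lt_irrefl _ hn
  · refine ((sq_almost_disjoint g b b' hb).image (fun N : ℕ => (N : ℤ))).subset ?_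
    rintro _ ⟨⟨n, rfl⟩, ⟨n', hn'⟩⟩
    refine ⟨sq g b n, ⟨⟨n, rfl⟩, ⟨n', ?_⟩⟩, rfl⟩
    dsimp only at hn'
    exact_mod_cast hn'

end Pool.Agent.Results.MP_02e9fb_an.FastGrowingFamilies
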